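import Pool.Agent.Lib.MP_144d21_co.PSI.Iface

/-!
# MP_144d21_co, project XU3, part PSI, module DIM (helper49)
-/

set_option autoImplicit false

namespace Pool.Agent.Xu.H49

open Finset Polynomial

section
variable {F V : Type} [Field F] [Fintype V]

/-- the exponent of a function -/
noncomputable def ex {V : Type} [Fintype V] (a : V → ℕ) : V →₀ ℕ :=
  Finsupp.equivFunOnFinite.symm a

theorem ex_apply (a : V → ℕ) (v : V) : ex a v = a v := rfl

theorem ex_coe (a : V →₀ ℕ) : ex (⇑a) = a := by
  ext v; rfl

theorem ex_inj {a b : V → ℕ} (h : ex a = ex b) : a = b :=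
  Finsupp.equivFunOnFinite.symm.injective h

/-- the polynomial with coefficients `f` -/
noncomputable def pl {n D : ℕ} (e : V → Fin n) (f : {x // x ∈ AA n (fun _ => 0) D} → F) :
    MvPolynomial V F[X] :=
  ∑ x, MvPolynomial.monomial (ex fun v => x.1.1 (e v)) (monomial x.1.2 (f x))

theorem pl_add {n D : ℕ} (e : V → Fin n) (f g : {x // x ∈ AA n (fun _ => 0) D} → F) :
    pl e (f + g) = pl e f + pl e g := by
  unfold pl
  rw [← sum_add_distrib]
  refine sum_congr rfl fun x _ => ?_
  rw [Pi.add_apply, map_add, map_add]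

theorem pl_smul {n D : ℕ} (e : V → Fin n) (r : F) (f : {x // x ∈ AA n (fun _ => 0) D} → F) :
    pl e (r • f) = MvPolynomial.C (C r) * pl e f := by
  unfold pl
  rw [mul_sum]
  refine sum_congr rfl fun x _ => ?_
  rw [MvPolynomial.C_mul_monomial, C_mul_monomial, Pi.smul_apply, smul_eq_mul]

theorem pl_coeff {n D : ℕ} (e : V → Fin n) (f : {x // x ∈ AA n (fun _ => 0) D} → F)
    (m : V →₀ ℕ) (k : ℕ) [DecidableEq V] : ((pl e f).coeff m).coeff k =
      ∑ x, if (ex fun v => x.1.1 (e v)) = m ∧ x.1.2 = k then f x else 0 := by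
  unfold pl
  rw [MvPolynomial.coeff_sum, finsetSum_coeff]
  refine sum_congr rfl fun x _ => ?_
  rw [MvPolynomial.coeff_monomial]
  by_cases h : (ex fun v => x.1.1 (e v)) = m
  · rw [if_pos h, coeff_monomial]
    simp [h]
  · rw [if_neg h, if_neg (fun h' => h h'.1), coeff_zero]

end

theorem dim (hV : VanS) : DimS := by
  intro F _ V ι _ _ _ _ n D d
  classical
  have hcard : Fintype.card V = n := by
    obtain ⟨c⟩ := (inferInstance : Nonempty ι)
    have := Matrix.square_of_invertible (d.B c) (d.Q c) (d.BQ c) (d.QB c)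
    rw [this, Fintype.card_fin]
  let e : V ≃ Fin n := Fintype.equivFinOfCardEq hcard
  let L : ({x // x ∈ AA n (fun _ => 0) D} → F) →ₗ[F]
      ((Σ c, {x // x ∈ AA n (d.bt c) D}) → F) :=
    { toFun := fun f y =>
        ((sbt (d.γ y.1) ((d.B y.1).map C) (pl e f)).coeff (ex y.2.1.1)).coeff y.2.1.2
      map_add' := by
        intro f g
        funext y
        simp only [pl_add, map_add, MvPolynomial.coeff_add, coeff_add, Pi.add_apply]
      map_smul' := by
        intro r f
        funext y
        rw [pl_smul, map_mul, ← MvPolynomial.algebraMap_eq, AlgHom.commutes,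
          MvPolynomial.algebraMap_eq, MvPolynomial.coeff_C_mul, coeff_C_mul]
        rfl }
  have hinj : Function.Injective L := by
    rw [← LinearMap.ker_eq_bot, LinearMap.ker_eq_bot']
    intro f hf
    have hdeg : ∀ x : {x // x ∈ AA n (fun _ => 0) D},
        (ex fun v => x.1.1 (e v)).degree = ∑ k, x.1.1 k := by
      intro x
      rw [Finsupp.degree_eq_sum]
      simp only [ex_apply]
      exact Equiv.sum_comp e (fun k => x.1.1 k)
    have hP : pl (e : V → Fin n) f = 0 := by
      refine hV F V ι n D d _ ?_ ?_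
      · intro m k hmk
        rw [pl_coeff]
        refine sum_eq_zero fun x _ => ?_
        rw [if_neg]
        rintro ⟨h1, h2⟩
        have hx := (mem_AA.1 x.2).2
        have := hdeg x
        rw [h1] at this
        omega
      · intro c a k h1 h2
        have hx : ((⇑a, k) : (Fin n → ℕ) × ℕ) ∈ AA n (d.bt c) D := by
          rw [mem_AA]
          refine ⟨h1, ?_⟩
          rw [Finsupp.degree_eq_sum] at h2
          exact h2
        have := congrFun hf ⟨c, ⟨(⇑a, k), hx⟩⟩
        simp only [Pi.zero_apply] at this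
        have h3 : L f ⟨c, ⟨(⇑a, k), hx⟩⟩ =
          ((sbt (d.γ c) ((d.B c).map C) (pl e f)).coeff (ex ⇑a)).coeff k := rfl
        rw [h3, ex_coe] at this
        exact this
    funext x
    have h1 := pl_coeff (e : V → Fin n) f (ex fun v => x.1.1 (e v)) x.1.2
    rw [hP, MvPolynomial.coeff_zero, coeff_zero] at h1
    have h2 : ∀ y : {x // x ∈ AA n (fun _ => 0) D},
        ((ex fun v => y.1.1 (e v)) = (ex fun v => x.1.1 (e v)) ∧ y.1.2 = x.1.2) ↔ y = x := by
      intro y
      constructor
      · rintro ⟨h3, h4⟩
        have h5 := ex_inj h3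
        apply Subtype.ext
        apply Prod.ext
        · funext k
          have := congrFun h5 (e.symm k)
          simpa using this
        · exact h4
      · rintro rfl; exact ⟨rfl, rfl⟩
    simp only [h2, sum_ite_eq', mem_univ, if_true] at h1
    exact h1.symm
  have h := LinearMap.finrank_le_finrank_of_injective hinj
  rw [Module.finrank_fintype_fun_eq_card, Module.finrank_fintype_fun_eq_card,
    Fintype.card_sigma] at h
  simpa using h

end Pool.Agent.Xu.H49
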