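import Pool.Agent.Lib.MP_144d21_co.PSI.Iface

/-!
# MP_144d21_co, project XU3, part PSI, module VAN (helper49)
-/

set_option autoImplicit false

namespace Pool.Agent.Xu.H49

open Finset Polynomial

theorem exists_low {R : Type} [CommRing R] {n : ℕ} (j : ℕ) (P : MvPolynomial (Fin n) R)
    (m : Fin n →₀ ℕ) (hm : m.degree = j) (hc : P.coeff m ≠ 0) :
    ∃ a, Low j P a ∧ P.coeff a ≠ 0 := by
  classical
  have hne : (P.support.filter fun b => b.degree = j).Nonempty :=
    ⟨m, by rw [mem_filter]; exact ⟨MvPolynomial.mem_support_iff.2 hc, hm⟩⟩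
  obtain ⟨a, ha, hmin⟩ := exists_min_image (P.support.filter fun b => b.degree = j)
    (fun b => (toLex b : Lex (Fin n →₀ ℕ))) hne
  rw [mem_filter] at ha
  refine ⟨a, ⟨ha.2, fun b hb hb0 hba => ?_⟩, MvPolynomial.mem_support_iff.1 ha.1⟩
  have h1 := hmin b (by rw [mem_filter]; exact ⟨MvPolynomial.mem_support_iff.2 hb0, hb⟩)
  have h2 : (toLex a : Lex (Fin n →₀ ℕ)) < toLex b :=
    lt_of_le_of_ne h1 (fun h => hba (toLex.injective h).symm)
  rw [Finsupp.Lex.lt_iff] at h2
  exact h2

theorem map_mul_C {F : Type} [Field F] {α β δ : Type} [Fintype β] (A : Matrix α β F)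
    (B : Matrix β δ F) :
    (A * B).map (C : F → F[X]) = (A.map C : Matrix α β F[X]) * (B.map C : Matrix β δ F[X]) := by
  ext i j : 2
  simp [Matrix.mul_apply, map_sum]

theorem map_one_C {F : Type} [Field F] {α : Type} [DecidableEq α] :
    (1 : Matrix α α F).map (C : F → F[X]) = 1 := by
  ext i j : 2
  by_cases h : i = j
  · subst h; simp
  · simp [Matrix.one_apply_ne h]

theorem van (hL : LocalS) (hS : SubcS) (hD : DegS) : VanS := by
  intro F _ V ι _ _ _ n D d P hP hc
  classical
  have key : ∀ j : ℕ, ∀ c : ι, Ord j (sbt (d.γ c) ((d.B c).map C) P) := by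
    intro j
    induction j with
    | zero => intro c m hm; omega
    | succ j ih =>
      intro c m hm
      rcases Nat.lt_or_ge m.degree j with hlt | hge
      · exact ih c m hlt
      have hmj : m.degree = j := by omega
      by_contra hcm
      obtain ⟨a, hlow, ha0⟩ := exists_low j _ m hmj hcm
      have hdiv : ∀ p ∈ d.A, (X - C p) ^ (∑ i ∈ d.I c p, a i) ∣
          (sbt (d.γ c) ((d.B c).map C) P).coeff a := by
        intro p hp
        refine hL F V n j (d.γ c) (d.B c) p (d.I c p) (d.m c p) P a (d.tri c p hp) ?_ hlow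
        intro T hT
        obtain ⟨c', hc'⟩ := d.cube c p hp T hT
        have e1 : (fun v => d.γ c v + (X - C p) * C (∑ i ∈ T, ∑ k, d.B c v k * d.m c p i k))
            = d.γ c' := by
          funext v; exact (hc' v).symm
        rw [e1]
        have h1 := (hS F[X] V (Fin n) (Fin n)).1 (d.γ c') ((d.B c').map C) 0
          ((d.Q c' * d.B c).map C) P
        have e2 : (fun v => d.γ c' v + ∑ k, ((d.B c').map C : Matrix V (Fin n) F[X]) v k *
            (0 : Fin n → F[X]) k) = d.γ c' := by
          funext v; simp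
        have e3 : ((d.B c').map C : Matrix V (Fin n) F[X]) *
            ((d.Q c' * d.B c).map C : Matrix (Fin n) (Fin n) F[X]) = (d.B c).map C := by
          rw [← map_mul_C, ← Matrix.mul_assoc, d.BQ, Matrix.one_mul]
        rw [e2, e3] at h1
        rw [← h1]
        exact (hS F[X] (Fin n) (Fin n) (Fin n)).2.2 j _ _ (ih c')
      set g := (sbt (d.γ c) ((d.B c).map C) P).coeff a with hg
      have hprod : (∏ p ∈ d.A, (X - C p) ^ (∑ i ∈ d.I c p, a i)) ∣ g := by
        refine Finset.prod_dvd_of_coprime ?_ hdiv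
        intro p hp q hq hpq
        refine IsCoprime.pow ?_
        exact isCoprime_X_sub_C_of_isUnit_sub (sub_ne_zero_of_ne hpq).isUnit
      have hdeg : (∏ p ∈ d.A, (X - C p) ^ (∑ i ∈ d.I c p, a i)).natDegree =
          ∑ k, d.bt c k * a k := by
        rw [natDegree_prod_of_monic _ _ (fun p _ => (monic_X_sub_C p).pow _)]
        have : ∀ p ∈ d.A, ((X - C p : F[X]) ^ (∑ i ∈ d.I c p, a i)).natDegree =
            ∑ k, if k ∈ d.I c p then a k else 0 := by
          intro p _
          rw [natDegree_pow, natDegree_X_sub_C, mul_one, ← sum_filter]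
          congr 1
          ext k; simp
        rw [sum_congr rfl this, sum_comm]
        refine sum_congr rfl fun k _ => ?_
        rw [← sum_filter, sum_const, smul_eq_mul]
        rfl
      have hle : ∑ k, d.bt c k * a k ≤ g.natDegree := by
        rw [← hdeg]
        exact natDegree_le_of_dvd hprod ha0
      have hlead : g.coeff g.natDegree ≠ 0 := by
        rw [coeff_natDegree]; exact leadingCoeff_ne_zero.2 ha0
      have hDB := hD F V n D (d.γ c) (d.B c) P (d.deg c) hP
      rcases Nat.lt_or_ge D (g.natDegree + a.degree) with h | h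
      · exact hlead (hDB a g.natDegree (by omega))
      · exact hlead (hc c a g.natDegree hle h)
  obtain ⟨c⟩ := (inferInstance : Nonempty ι)
  have hg0 : sbt (d.γ c) ((d.B c).map C) P = 0 := by
    ext m : 1
    rw [key (m.degree + 1) c m (Nat.lt_succ_self _), MvPolynomial.coeff_zero]
  have h1 := (hS F[X] V (Fin n) V).1 (d.γ c) ((d.B c).map C)
    (fun k => -∑ u, C (d.Q c k u) * d.γ c u) ((d.Q c).map C) P
  rw [hg0, map_zero] at h1
  have e3 : ((d.B c).map C : Matrix V (Fin n) F[X]) * ((d.Q c).map C : Matrix (Fin n) V F[X]) =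
      1 := by
    rw [← map_mul_C, d.BQ, map_one_C]
  have e2 : (fun v => d.γ c v + ∑ k, ((d.B c).map C : Matrix V (Fin n) F[X]) v k *
      (-∑ u, C (d.Q c k u) * d.γ c u)) = (0 : V → F[X]) := by
    funext v
    have h2 : ∑ k, ((d.B c).map C : Matrix V (Fin n) F[X]) v k *
        (∑ u, C (d.Q c k u) * d.γ c u) = d.γ c v := by
      calc ∑ k, ((d.B c).map C : Matrix V (Fin n) F[X]) v k * (∑ u, C (d.Q c k u) * d.γ c u)
          = ∑ u, (∑ k, ((d.B c).map C : Matrix V (Fin n) F[X]) v k *
              ((d.Q c).map C : Matrix (Fin n) V F[X]) k u) * d.γ c u := by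
            simp_rw [mul_sum, sum_mul]
            rw [sum_comm]
            refine sum_congr rfl fun u _ => sum_congr rfl fun k _ => ?_
            rw [Matrix.map_apply, Matrix.map_apply]; ring
        _ = ∑ u, (1 : Matrix V V F[X]) v u * d.γ c u := by
            refine sum_congr rfl fun u _ => ?_
            rw [← e3, Matrix.mul_apply]
        _ = d.γ c v := by simp [Matrix.one_apply]
    simp only [mul_neg, sum_neg_distrib]
    rw [h2]; simp
  rw [e2, e3, (hS F[X] V V V).2.1 P] at h1
  exact h1.symm

end Pool.Agent.Xu.H49
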